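import Mathlib
import Pool.Agent.TH115.GD.Defs
import Pool.Agent.TH115.ID.Defs
import Pool.Agent.R939.EI.Tw1
import Pool.Agent.H571.BC.Defs
import Pool.Agent.H571.BC.Dens

/-!
# The Tate conjecture at 2 for elliptic surfaces over almost all multiquadratic base curves

Let `k` be a number field, `k'` an algebraic closure, `K = k(t)`, `F = k'(t)`, and let
`E : y² = x (x² + a x + b)` be an elliptic curve over `K` with a rational point of order two, `a`, `b`
polynomials. Let `b` and `a² - 4 b` satisfy the condition `NotNorm` (not a constant times a square or
times a norm of a polynomial over a quadratic extension of `k`) and let `OnlyTrivial` hold for `(a, b)`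
and for `(-2 a, a² - 4 b)`, the curve isogenous to `E`; all this holds for example if `b` and
`a² - 4 b` are irreducible of odd degree and `b` does not divide `a`.

Theorem. Fix degrees `n₁, ..., n_u ≥ 1` and let `D₁, ..., D_u` of degree at most `n_l` run through the
polynomials whose coefficients are integers of `k` with coordinates between `-H` and `H`. Then for all
of them, with the exception of a proportion which tends to zero if `H` tends to infinity, the following
holds for all constants `c₁, ..., c_u ∈ k*` and all polynomials `h` of odd degree such that the prime
divisors of `b (a² - 4 b)` remain prime after `t ↦ h(t)` (a condition on `E` and `h` only, satisfied by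
`h = t`), and such that `h` is monic with coefficients which are integers of `k`, or the `D_l(h)` are
irreducible. The curve `C` with the equations

`s_l² = c_l D_l(h(t))`,  `l = 1, ..., u`,

is geometrically irreducible over `k`, a covering of the line of degree `2 ^ u`, and the Tate conjecture
at 2 holds for the elliptic surface over `C` with generic fibre `y² = x (x² + a(h) x + b(h))`:
all the classes in `V₂ Sel` over the function field of `C` over `k'`, which are fixed by the Galois
group of `k`, come from rational points over the function field `L = k(C)`.

For `u = 1` the base curves are almost all the hyperelliptic curves `s² = c D(t)` of a given genus. The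
genus of the base curves (the irregularity of the surfaces) is unbounded; the previous theorems of this
kind are for elliptic surfaces over the line.

Proof. Let `L = L'(s)` with `s² = D` in `K`, and let `c` be a fixed class over `L`. The corestriction of
`c` to `L'`, and the corestriction of the image of `c` on the quadratic twist of `E` by `D`, are fixed
classes over `L'` which are everywhere locally trivial (up to a factor two; `Pool.Agent.H571.BC.Des`),
and `c` is half of the sum of their restrictions (`Pool.Agent.H571.BC.Stp`). So by induction
(`Pool.Agent.H571.BC.Gen`) the theorem over `L` follows from the theorem over `K` for the quadratic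
twists of `E` by all the products of some of the `c_l D_l(h)`. For these the criterion of
`Pool.Agent.R939.EI.Tw1` can be used for almost all `D_l`, for all the products, all `c_l` and all `h` at
the same time (`Pool.Agent.R939.HI.Fix`, `Pool.Agent.R939.PP.Mon`). That none of these products is a
square over `k'` follows from a count of the pairs of proportional polynomials
(`Pool.Agent.H571.BC.Dens`).
-/

namespace Pool.Agent.Results.MP_89bcae_ag.AlmostAllBaseCurves

open Polynomial NumberField Pool.Agent.TH115.GD Pool.Agent.R939.EI Pool.Agent.H571.BC

theorem result {k k' K F : Type} [Field k] [NumberField k] [Field k'] [Algebra k k'] [Field K]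
    [Algebra k[X] K] [Field F] [Algebra k'[X] F] [IsFractionRing k'[X] F] [Algebra K F]
    (hT : IsTower k k' K F) {J : Type} [Fintype J] (B : Module.Basis J ℤ (𝓞 k)) {a b : k[X]}
    (hNb : NotNorm b) (hNd : NotNorm (a ^ 2 - 4 * b)) (hO : OnlyTrivial a b)
    (hO' : OnlyTrivial (-2 * a) (a ^ 2 - 4 * b)) {u : ℕ} (n : Fin u → ℕ) (hn : ∀ l, 1 ≤ n l)
    {η : ℝ} (hη : 0 < η) :
    ∃ H0 : ℕ, ∀ H : ℕ, H0 ≤ H →
      (({x : (l : Fin u) → Fin (n l + 1) → 𝓞 k | (∀ l j t, |B.repr (x l j) t| ≤ (H : ℤ)) ∧
        ¬ TateMQ k' K F a b (fun l => polA fun j => algebraMap (𝓞 k) k (x l j))}.ncard : ℕ) : ℝ) ≤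
        η * (2 * H + 1) ^ (Fintype.card J * ∑ l, (n l + 1)) :=
  almost_all hT B hNb hNd hO hO' hn hη

end Pool.Agent.Results.MP_89bcae_ag.AlmostAllBaseCurves
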