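import Mathlib
import Pool.Agent.TH115.GD.Defs
import Pool.Agent.TH115.ID.Defs
import Pool.Agent.W309.TD.Stmt
import Pool.Agent.H709.TS.Defs
import Pool.Agent.H709.TS.Ex2

/-!
# The Tate conjecture at 2, the exact rank and the Tate-Shafarevich group for elliptic surfaces with
# several independent sections of infinite order

Let `k` be a field of characteristic different from 2 (for example finitely generated over its prime
field), `k'` a separable closure, `K = k(t)`, `F = k'(t)`.

Let `q₀, …, q_r` be irreducible separable polynomials over `k`, no two of them associated,
`b = q₀ ⋯ q_r`, and let `a`, `w₁, …, w_r` be polynomials with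

`w_i² = q_i + a + b / q_i`, `i = 1, …, r`,

so that the curve `E : y² = x (x² + a x + b)` over `K` has the points `(q_i, q_i w_i)`, besides the point
`T = (0, 0)` of order two. Let `d = a² - 4 b` be irreducible and separable (`HasSections`), and suppose
that `k[t] / (d)` and at least one of the fields `k[t] / (q_i)` contain no square roots of nonsquares of `k`
(`SqStable`; this is automatic if the degree is odd).

**Theorem.** (1) (`HoldsFor`)

(i) The Tate conjecture for divisors at the prime 2 holds for the elliptic surface over the projective
line with generic fibre `E`: all the classes in `V₂ Sel(E / F)` which are fixed by the Galois group of `k`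
come from `E(K)`.

(ii) The `r` points `(q_i, q_i w_i)` are linearly independent, and together with `T` they generate
`E(K) / 2 E(K)`. So if `E(K)` is finitely generated (theorem of Lang and Neron) its rank is exactly `r`.

(iii) The classes of 2-power order in `H¹(K, E)` which are trivial over the completions of `K` at the
maximal ideals of `k[t]` are zero.

(2) For `r = 3` there are such data which depend on three arbitrary polynomials `q`, `r`, `s` and two
constants `l ≠ m`, not zero: define `p` by `(l - m) (l m p - 1) = (l m - s) (l q - m r)` and put
`w = (l (p - q) + (1 - r s) / l) / 2`, `a = w² - p - q r s`, `b = p q r s`. The curve has the points with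
`x = p`, `x = q` and `x = r`. If `p`, `q`, `r`, `s` and `a² - 4 b` are irreducible (and the first four not
associated), then `HasSections` holds.

(3) Let `k` be any field of characteristic zero in which the field `ℚ` is algebraically closed (for example
`ℚ`, `ℚ(s₁, …, s_m)` or the function field of a geometrically irreducible variety over `ℚ`). For ALL odd
numbers `n` all the conclusions of (1) hold, with three points, for

`E_n : y² = x (x² + (T² + 1) x + (T² - 16) (T² + T - 4) (T³ + T² - 4) / 16)`, `T = t ^ n`.

The geometric genus of the surface tends to infinity with `n`. The surfaces are members of the family (2)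
(`l = 1`, `m = -1`, `q = T + 4`, `r = T - 4`, `s = (T² + T - 4) / 4`, `p = (T³ + T² - 4) / 4`); the discriminant
factor `-4 (a² - 4 b)` is `T⁷ + 2 T⁶ - 19 T⁵ - 44 T⁴ + 44 T³ + 136 T² + 64 T - 260`.

`TateAtTwo` is the Tate conjecture for divisors at the prime 2 on the elliptic surface since
`Br(X ⊗ k') = Ш(E / F)` up to `p`-torsion (Grothendieck).

The surfaces with `r = 0` and with `r = 1` were treated in earlier files (`TwoTorsionSection`,
`MP_17a657_ag.AlmostAllWithSection`, `MP_af4e75_ag.RankOneFinitelyGenerated`). For `r ≥ 2` they form a locus
of higher codimension in the family of the surfaces with a section of order two, to which these results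
say nothing: the condition on the divisors of `b` used there fails because there are sections which
belong to them.

Proof. `x(P)` modulo squares is a homomorphism on `E(K)`; the classes of the sums of the given points
fill the group of all the divisors of `b`, and for the isogenous curve the points of order two fill the
group of the divisors of `d`. So the descents by 2-isogenies over `F` for Galois-invariant classes
(`Pool.Agent.TH115.ID`) and over `K` (`Pool.Agent.X243.CD`) are complete. The identities in (2) come from
`w₁² - w₂² = (p - q) (1 - r s)`, `w₁² - w₃² = (p - r) (1 - q s)`, which are solved by factoring both sides in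
the same way. For (3) the five polynomials in `T` are irreducible over `ℚ` and their values at `T = 0` have
the 2-adic valuation 2, so they remain irreducible after `T = t ^ n` (theorem of Vahlen and Capelli).
-/

set_option autoImplicit false
set_option linter.all false

namespace Pool.Agent.Results.MP_89bcae_ag.SeveralSections

open Polynomial Pool.Agent.TH115.GD Pool.Agent.H709.TS
open Pool.Agent.W309.TD (SqStable)

/-- (1): the conclusions for all the data. -/
def Criterion : Prop :=
  ∀ (k k' K F : Type) [Field k] [Field k'] [Algebra k k'] [Field K] [Algebra k[X] K]
    [IsFractionRing k[X] K] [Field F] [Algebra k'[X] F] [IsFractionRing k'[X] F] [Algebra K F],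
    IsTower k k' K F → (2 : k) ≠ 0 →
      ∀ (r : ℕ) (q : Fin (r + 1) → k[X]) (a : k[X]) (w : Fin r → k[X]), IsData q a w →
        HoldsFor k' K F a (∏ i, q i) (fun i => q i.succ) w

/-- (2): data with three points from arbitrary polynomials `q`, `r`, `s` and constants `l`, `m`. -/
def FamilyThree : Prop :=
  ∀ (k : Type) [Field k], (2 : k) ≠ 0 → ∀ (l m : k) (p q r s : k[X]), IsThree l m p q r s →
    HasSections ![s, p, q, r] (aThree l m q r s) (wThree l m p q r s)

/-- (3): the surfaces `E_n`. -/
def UnboundedGenus : Prop :=
  ∀ (k k' K F : Type) [Field k] [CharZero k] [Field k'] [Algebra k k'] [Field K]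
    [Algebra k[X] K] [IsFractionRing k[X] K] [Field F] [Algebra k'[X] F]
    [IsFractionRing k'[X] F] [Algebra K F],
    (∀ x : k, IsAlgebraic ℚ x → ∃ y : ℚ, (y : k) = x) → IsTower k k' K F → ∀ n : ℕ, Odd n →
      ∃ x w : Fin 3 → k[X], HoldsFor k' K F (exA k n) (exB k n) x w

theorem result : Criterion ∧ FamilyThree ∧ UnboundedGenus :=
  ⟨fun _ _ _ _ _ _ _ _ _ _ _ _ _ _ hT h2 _ _ _ _ H =>
      holds hT h2 H.sections H.sep H.sepD H.stable H.stableD,
    fun _ _ h2 _ _ _ _ _ _ H =>
      hasThree h2 H.l_ne H.m_ne H.ne H.eq H.irrp H.irrq H.irrr H.irrs H.pq H.pr H.ps H.qr H.qs H.rs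
        H.disc,
    fun _ _ _ _ _ _ _ _ _ _ _ _ _ _ _ hk hT _ hn => example_holds hk hT hn⟩

end Pool.Agent.Results.MP_89bcae_ag.SeveralSections
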